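import Mathlib

namespace Pool.Agent.Lib.MP_34ced1_al

open Matrix

variable {n : ℕ}

lemma diag_mul {A B : Matrix (Fin n) (Fin n) ℤ} (hA : ∀ i j, j < i → A i j = 0)
    (hB : ∀ i j, j < i → B i j = 0) (i : Fin n) : (A * B) i i = A i i * B i i := by
  rw [Matrix.mul_apply]
  refine Finset.sum_eq_single i (fun l _ hl => ?_) (by simp)
  rcases lt_or_gt_of_ne hl with h | h
  · rw [hA i l h, zero_mul]
  · rw [hB l i h, mul_zero]

lemma tri_mul {a b : GL (Fin n) ℤ}
    (ha : (∀ i j, j < i → a i j = 0) ∧ ∀ i, a i i = 1)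
    (hb : (∀ i j, j < i → b i j = 0) ∧ ∀ i, b i i = 1) :
    (∀ i j, j < i → (a * b) i j = 0) ∧ ∀ i, (a * b) i i = 1 := by
  constructor
  · intro i j hij
    have h1 : (a : Matrix (Fin n) (Fin n) ℤ).BlockTriangular id := fun i j h => ha.1 i j h
    have h2 : (b : Matrix (Fin n) (Fin n) ℤ).BlockTriangular id := fun i j h => hb.1 i j h
    exact h1.mul h2 hij
  · intro i
    have := diag_mul ha.1 hb.1 i
    rw [ha.2, hb.2] at this
    exact this

lemma tri_one : (∀ i j, j < i → (1 : GL (Fin n) ℤ) i j = 0) ∧ ∀ i, (1 : GL (Fin n) ℤ) i i = 1 := by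
  constructor
  · intro i j hij
    exact Matrix.one_apply_ne (ne_of_gt hij)
  · intro i
    exact Matrix.one_apply_eq i

lemma tri_inv {a : GL (Fin n) ℤ} (ha : (∀ i j, j < i → a i j = 0) ∧ ∀ i, a i i = 1) :
    (∀ i j, j < i → a⁻¹ i j = 0) ∧ ∀ i, a⁻¹ i i = 1 := by
  have h1 : (a : Matrix (Fin n) (Fin n) ℤ).BlockTriangular id := fun i j h => ha.1 i j h
  let : Invertible (a : Matrix (Fin n) (Fin n) ℤ) := a.invertible
  have h2 := Matrix.blockTriangular_inv_of_blockTriangular h1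
  have h3 : ∀ i j, j < i → a⁻¹ i j = 0 := by
    intro i j hij
    have := h2 (i := i) (j := j) hij
    rwa [← Matrix.coe_units_inv] at this
  refine ⟨h3, fun i => ?_⟩
  have h4 := diag_mul h3 ha.1 i
  rw [ha.2, mul_one] at h4
  rw [← h4, ← Units.val_mul, inv_mul_cancel]
  exact Matrix.one_apply_eq i

end Pool.Agent.Lib.MP_34ced1_al
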