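import Mathlib
import Pool.Agent.Lib.MP_34ced1_al.Tri

namespace Pool.Agent.Lib.MP_34ced1_al

/-- The group `UT_n(ℤ)` of upper triangular integer matrices with all diagonal entries `1`. -/
def UT (n : ℕ) : Subgroup (GL (Fin n) ℤ) where
  carrier := {g | (∀ i j, j < i → g i j = 0) ∧ ∀ i, g i i = 1}
  mul_mem' := tri_mul
  one_mem' := tri_one
  inv_mem' := tri_inv

/-- The word length of `g` with respect to `S`: the least length of a list of elements of `S` and
inverses of elements of `S` whose product is `g`. -/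
noncomputable def wordLength {K : Type} [Group K] (S : Finset K) (g : K) : ℕ :=
  sInf {m | ∃ w : List K, (∀ x ∈ w, x ∈ S ∨ x⁻¹ ∈ S) ∧ w.prod = g ∧ w.length = m}

/-- `H` is undistorted in `K`: for some finite generating sets `S` of `H` and `T` of `K` and some
`C ≥ 1`, `|h|_S ≤ C |h|_T + C` for all `h ∈ H`. -/
def Undistorted {K : Type} [Group K] (H : Subgroup K) : Prop :=
  ∃ S T : Finset K, Subgroup.closure (S : Set K) = H ∧ Subgroup.closure (T : Set K) = ⊤ ∧
    ∃ C : ℝ, 1 ≤ C ∧ ∀ h ∈ H, (wordLength S h : ℝ) ≤ C * wordLength T h + C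

end Pool.Agent.Lib.MP_34ced1_al
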