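import Mathlib
import Pool.Agent.Lib.MP_34ced1_al.Defs

namespace Pool.Agent.Lib.MP_34ced1_al

variable {K : Type} [Group K]

lemma exists_word {S : Finset K} {g : K} (hg : g ∈ Subgroup.closure (S : Set K)) :
    ∃ w : List K, (∀ x ∈ w, x ∈ S ∨ x⁻¹ ∈ S) ∧ w.prod = g ∧ w.length = wordLength S g := by
  have h1 : g ∈ (Subgroup.closure (S : Set K)).toSubmonoid := hg
  rw [Subgroup.closure_toSubmonoid] at h1
  obtain ⟨w, hw1, hw2⟩ := Submonoid.exists_list_of_mem_closure h1
  have hne : {m | ∃ w : List K, (∀ x ∈ w, x ∈ S ∨ x⁻¹ ∈ S) ∧ w.prod = g ∧ w.length = m}.Nonempty :=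
    ⟨w.length, w, fun x hx => by simpa using hw1 x hx, hw2, rfl⟩
  exact Nat.sInf_mem hne

lemma wordLength_le {S : Finset K} (w : List K) (hw : ∀ x ∈ w, x ∈ S ∨ x⁻¹ ∈ S) :
    wordLength S w.prod ≤ w.length :=
  Nat.sInf_le ⟨w, hw, rfl, rfl⟩

lemma wordLength_one (S : Finset K) : wordLength S 1 = 0 := by
  have := wordLength_le (S := S) [] (by simp)
  simpa using this

lemma wordLength_mul {T : Finset K} (hT : Subgroup.closure (T : Set K) = ⊤) (g h : K) :
    wordLength T (g * h) ≤ wordLength T g + wordLength T h := by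
  obtain ⟨v, hv1, hv2, hv3⟩ := exists_word (S := T) (g := g) (hT ▸ Subgroup.mem_top g)
  obtain ⟨w, hw1, hw2, hw3⟩ := exists_word (S := T) (g := h) (hT ▸ Subgroup.mem_top h)
  have := wordLength_le (S := T) (v ++ w) (fun x hx => by
    rcases List.mem_append.mp hx with h | h
    · exact hv1 x h
    · exact hw1 x h)
  rwa [List.prod_append, List.length_append, hv2, hw2, hv3, hw3] at this

lemma wordLength_pow {T : Finset K} (hT : Subgroup.closure (T : Set K) = ⊤) (g : K) (k : ℕ) :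
    wordLength T (g ^ k) ≤ k * wordLength T g := by
  induction k with
  | zero => simp [wordLength_one]
  | succ k ih =>
    rw [pow_succ, Nat.succ_mul]
    exact le_trans (wordLength_mul hT _ _) (Nat.add_le_add_right ih _)

lemma wordLength_zpow {T : Finset K} (hT : Subgroup.closure (T : Set K) = ⊤) (g : K) (k : ℤ) :
    wordLength T (g ^ k) ≤ k.natAbs * (wordLength T g + wordLength T g⁻¹) := by
  obtain ⟨m, rfl | rfl⟩ := Int.eq_nat_or_neg k
  · rw [zpow_natCast, Int.natAbs_natCast]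
    exact le_trans (wordLength_pow hT g m) (Nat.mul_le_mul_left _ (Nat.le_add_right _ _))
  · rw [zpow_neg, zpow_natCast, ← inv_pow, Int.natAbs_neg, Int.natAbs_natCast]
    exact le_trans (wordLength_pow hT g⁻¹ m) (Nat.mul_le_mul_left _ (Nat.le_add_left _ _))

lemma eq_zpow_of_add (f : ℤ → K) (hf : ∀ a b, f (a + b) = f a * f b) (k : ℤ) :
    f k = f 1 ^ k := by
  let F : Multiplicative ℤ →* K := MonoidHom.mk' (fun a => f a.toAdd) (fun a b => hf _ _)
  have h1 : f k = F (Multiplicative.ofAdd (1 : ℤ) ^ k) := by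
    rw [← ofAdd_zsmul]; simp [F]
  rw [h1, map_zpow]
  rfl

end Pool.Agent.Lib.MP_34ced1_al
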