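import Mathlib
import Pool.Agent.Lib.MP_34ced1_al.Word

namespace Pool.Agent.Lib.MP_34ced1_al

open Matrix

variable {n : ℕ}

/-- The matrix of an element of `UT n`. -/
def ent (g : UT n) : Matrix (Fin n) (Fin n) ℤ := g.1.1

lemma ent_mul (g h : UT n) : ent (g * h) = ent g * ent h := rfl

lemma ent_one : ent (1 : UT n) = 1 := rfl

lemma ent_inj {g h : UT n} (e : ent g = ent h) : g = h := Subtype.ext (Units.ext e)

lemma ent_lower (g : UT n) {i j : Fin n} (h : j < i) : ent g i j = 0 := g.2.1 i j h

lemma ent_diag (g : UT n) (i : Fin n) : ent g i i = 1 := g.2.2 i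

/-- The elementary matrix with entry `x` at the position `(i, j)`, `i < j`. -/
def E (i j : Fin n) (h : i < j) (x : ℤ) : UT n :=
  ⟨⟨transvection i j x, transvection i j (-x),
    by rw [transvection_mul_transvection_same i j h.ne]; simp,
    by rw [transvection_mul_transvection_same i j h.ne]; simp⟩, by
    constructor
    · intro a b hab
      show transvection i j x a b = 0
      have h1 : a ≠ b := ne_of_gt hab
      have h2 : ¬ (i = a ∧ j = b) := by
        rintro ⟨rfl, rfl⟩
        exact lt_asymm h hab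
      simp [transvection, Matrix.one_apply_ne h1, h2]
    · intro a
      show transvection i j x a a = 1
      have h2 : ¬ (i = a ∧ j = a) := by
        rintro ⟨rfl, rfl⟩
        exact lt_irrefl _ h
      simp [transvection, h2]⟩

lemma ent_E (i j : Fin n) (h : i < j) (x : ℤ) : ent (E i j h x) = transvection i j x := rfl

lemma E_add (i j : Fin n) (h : i < j) (x y : ℤ) : E i j h (x + y) = E i j h x * E i j h y := by
  apply ent_inj
  rw [ent_mul, ent_E, ent_E, ent_E, transvection_mul_transvection_same i j h.ne]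

lemma ring_comm {R : Type*} [Ring R] (A B : R) (h1 : A * A = 0) (h2 : B * B = 0)
    (h3 : B * A = 0) : (1 + A) * (1 + B) * (1 - A) * (1 - B) = 1 + A * B := by
  have e1 : (1 + A) * (1 + B) * (1 - A) * (1 - B) = 1 + A * B - A * A - B * A - B * B
      - A * (B * A) - A * (B * B) + (A * A) * B + (B * A) * B + A * (B * A) * B := by
    noncomm_ring
  rw [e1, h1, h2, h3]
  simp

lemma E_comm (i k j : Fin n) (h1 : i < k) (h2 : k < j) (a b : ℤ) :
    E i j (h1.trans h2) (a * b) = E i k h1 a * E k j h2 b * E i k h1 (-a) * E k j h2 (-b) := by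
  apply ent_inj
  simp only [ent_mul, ent_E, transvection]
  have := ring_comm (single i k a : Matrix (Fin n) (Fin n) ℤ) (single k j b)
    (single_mul_single_of_ne _ _ _ _ h1.ne' _) (single_mul_single_of_ne _ _ _ _ h2.ne' _)
    (single_mul_single_of_ne _ _ _ _ (h1.trans h2).ne' _)
  rw [single_mul_single_same] at this
  rw [← this, ← single_neg, ← single_neg]
  simp only [sub_eq_add_neg]

variable {T : Finset (UT n)}

lemma E_linear (hT : Subgroup.closure (T : Set (UT n)) = ⊤) :
    ∃ L : ℕ, ∀ (i j : Fin n) (h : i < j) (x : ℤ), wordLength T (E i j h x) ≤ x.natAbs * L := by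
  classical
  let f : Fin n × Fin n → ℕ := fun p =>
    if h : p.1 < p.2 then wordLength T (E p.1 p.2 h 1) + wordLength T (E p.1 p.2 h 1)⁻¹ else 0
  refine ⟨Finset.univ.sup f, fun i j h x => ?_⟩
  rw [eq_zpow_of_add (E i j h) (E_add i j h) x]
  refine le_trans (wordLength_zpow hT _ _) (Nat.mul_le_mul_left _ ?_)
  have := Finset.le_sup (f := f) (Finset.mem_univ (i, j))
  simpa [f, h] using this

lemma E_bound (hT : Subgroup.closure (T : Set (UT n)) = ⊤) (d : ℕ) :
    ∃ C : ℕ, ∀ (i j : Fin n) (h : i < j), (j : ℕ) - i ≤ d → ∀ (t : ℕ), 1 ≤ t → ∀ x : ℤ,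
      x.natAbs ≤ t ^ ((j : ℕ) - i) → wordLength T (E i j h x) ≤ C * t := by
  obtain ⟨L, hL⟩ := E_linear hT
  induction d with
  | zero =>
    refine ⟨0, fun i j h hd => ?_⟩
    have : (i : ℕ) < j := h
    omega
  | succ d ih =>
    obtain ⟨C, hC⟩ := ih
    refine ⟨4 * (L + C), fun i j h hd t ht x hx => ?_⟩
    have hij : (i : ℕ) < j := h
    by_cases h1 : (j : ℕ) - i = 1
    · rw [h1, pow_one] at hx
      calc wordLength T (E i j h x) ≤ x.natAbs * L := hL i j h x
        _ ≤ t * L := Nat.mul_le_mul_right _ hx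
        _ ≤ 4 * (L + C) * t := by nlinarith
    · let k : Fin n := ⟨i + 1, by omega⟩
      have hik : i < k := by rw [Fin.lt_def]; simp [k]
      have hkj : k < j := by rw [Fin.lt_def]; simp only [k]; omega
      have hk : (k : ℕ) = i + 1 := rfl
      obtain ⟨e, he⟩ : ∃ e, e = (j : ℕ) - k := ⟨_, rfl⟩
      have he1 : (j : ℕ) - i = e + 1 := by omega
      have key : ∀ a b : ℤ, a.natAbs ≤ t → b.natAbs ≤ t ^ e →
          wordLength T (E i j h (a * b)) ≤ 2 * (L + C) * t := by
        intro a b ha hb
        have e1 := E_comm i k j hik hkj a b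
        have w1 := le_trans (hL i k hik a) (Nat.mul_le_mul_right L ha)
        have w2 := le_trans (hL i k hik (-a))
          (Nat.mul_le_mul_right L (by simpa using ha : (-a).natAbs ≤ t))
        have w3 := hC k j hkj (by omega) t ht b (he ▸ hb)
        have w4 := hC k j hkj (by omega) t ht (-b) (by rw [← he]; simpa using hb)
        have w5 := wordLength_mul hT (E i k hik a * E k j hkj b * E i k hik (-a)) (E k j hkj (-b))
        have w6 := wordLength_mul hT (E i k hik a * E k j hkj b) (E i k hik (-a))
        have w7 := wordLength_mul hT (E i k hik a) (E k j hkj b)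
        rw [← e1] at w5
        have : 2 * (L + C) * t = t * L + t * L + C * t + C * t := by ring
        exact le_trans w5 (by omega)
      have hpos : (0 : ℤ) < (t : ℤ) ^ e := by positivity
      have hx2 : x = x.tdiv ((t : ℤ) ^ e) * (t : ℤ) ^ e + 1 * x.tmod ((t : ℤ) ^ e) := by
        have := Int.mul_tdiv_add_tmod x ((t : ℤ) ^ e)
        linarith
      have q1 : (x.tdiv ((t : ℤ) ^ e)).natAbs ≤ t := by
        rw [Int.natAbs_tdiv, Int.natAbs_pow, Int.natAbs_natCast]
        rw [he1, pow_succ] at hx
        exact Nat.div_le_of_le_mul hx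
      have q2 : (x.tmod ((t : ℤ) ^ e)).natAbs ≤ t ^ e := by
        rw [Int.natAbs_tmod, Int.natAbs_pow, Int.natAbs_natCast]
        exact (Nat.mod_lt _ (by positivity)).le
      have k1 := key (x.tdiv ((t : ℤ) ^ e)) ((t : ℤ) ^ e) q1 (by simp)
      have k2 := key 1 (x.tmod ((t : ℤ) ^ e)) (by simpa using ht) q2
      rw [hx2, E_add]
      refine le_trans (wordLength_mul hT _ _) ?_
      have : 4 * (L + C) * t = 2 * (L + C) * t + 2 * (L + C) * t := by ring
      omega

/-- The positions above the diagonal with a nonzero entry. -/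
def supp (g : UT n) : Finset (Fin n × Fin n) :=
  Finset.univ.filter (fun p => p.1 < p.2 ∧ ent g p.1 p.2 ≠ 0)

theorem wordLength_le_of_entries (hT : Subgroup.closure (T : Set (UT n)) = ⊤) :
    ∃ C : ℕ, ∀ t : ℕ, 1 ≤ t → ∀ g : UT n,
      (∀ i j : Fin n, i < j → (ent g i j).natAbs ≤ t ^ ((j : ℕ) - i)) →
        wordLength T g ≤ C * t := by
  obtain ⟨C, hC⟩ := E_bound hT n
  have main : ∀ t : ℕ, 1 ≤ t → ∀ m : ℕ, ∀ g : UT n, (supp g).card = m →
      (∀ i j : Fin n, i < j → (ent g i j).natAbs ≤ t ^ ((j : ℕ) - i)) →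
        wordLength T g ≤ m * (C * t) := by
    intro t ht m
    induction m with
    | zero =>
      intro g hg _
      have : g = 1 := by
        apply ent_inj
        ext i j
        rcases lt_trichotomy i j with h | h | h
        · have h1 : (i, j) ∉ supp g := by rw [Finset.card_eq_zero.mp hg]; simp
          simp only [supp, Finset.mem_filter, Finset.mem_univ, true_and, not_and, not_not] at h1
          rw [h1 h, ent_one, Matrix.one_apply_ne h.ne]
        · subst h; rw [ent_diag, ent_diag]
        · rw [ent_lower _ h, ent_lower _ h]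
      rw [this, wordLength_one]
      exact Nat.zero_le _
    | succ m ih =>
      intro g hg hb
      have hne : (supp g).Nonempty := Finset.card_pos.mp (by omega)
      obtain ⟨⟨i, j⟩, hp, hmin⟩ := Finset.exists_min_image (supp g) (fun p => p.1) hne
      have hij : i < j := (Finset.mem_filter.mp hp).2.1
      have hcol : ∀ a : Fin n, a ≠ i → ent g a i = 0 := by
        intro a ha
        rcases lt_or_gt_of_ne ha with h | h
        · by_contra h0
          have : (a, i) ∈ supp g := Finset.mem_filter.mpr ⟨Finset.mem_univ _, h, h0⟩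
          exact absurd (hmin _ this) (not_le.mpr h)
        · exact ent_lower g h
      let g' := g * E i j hij (-(ent g i j))
      have hent : ∀ a b : Fin n, ent g' a b = if a = i ∧ b = j then 0 else ent g a b := by
        intro a b
        simp only [g', ent_mul, ent_E]
        by_cases hb : b = j
        · subst hb
          rw [mul_transvection_apply_same]
          by_cases ha : a = i
          · subst ha; simp [ent_diag]
          · simp [ha, hcol a ha]
        · rw [mul_transvection_apply_of_ne _ _ _ _ hb]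
          simp [hb]
      have hs : supp g' = (supp g).erase (i, j) := by
        ext ⟨a, b⟩
        simp only [supp, Finset.mem_filter, Finset.mem_univ, true_and, Finset.mem_erase, hent,
          ne_eq, Prod.mk.injEq]
        by_cases hab : a = i ∧ b = j
        · simp [hab]
        · simp [hab]
      have h1 := ih g' (by rw [hs, Finset.card_erase_of_mem hp, hg]; rfl) (fun a b hab => by
        rw [hent]
        split_ifs
        · simp
        · exact hb a b hab)
      have h2 : g = g' * E i j hij (ent g i j) := by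
        simp only [g']
        rw [mul_assoc, ← E_add, neg_add_cancel]
        apply ent_inj
        rw [ent_mul, ent_E, transvection_zero, mul_one]
      have h3 := hC i j hij (by omega) t ht _ (hb i j hij)
      have h4 := wordLength_mul hT g' (E i j hij (ent g i j))
      rw [← h2] at h4
      rw [Nat.succ_mul]
      omega
  refine ⟨n * n * C, fun t ht g hg => ?_⟩
  have h1 := main t ht _ g rfl hg
  have h2 : (supp g).card ≤ n * n := by
    have := Finset.card_le_univ (supp g)
    simpa using this
  calc wordLength T g ≤ (supp g).card * (C * t) := h1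
    _ ≤ n * n * (C * t) := Nat.mul_le_mul_right _ h2
    _ = _ := by ring

lemma pow_entries (u : UT n) (hu : ∀ i j : Fin n, i < j → (j : ℕ) - i ≤ 2 → ent u i j = 0) :
    ∃ D : ℕ, 1 ≤ D ∧ ∀ (k : ℕ) (i j : Fin n),
      (ent (u ^ k) i j).natAbs ≤ (D * k) ^ (((j : ℕ) - i) / 3) := by
  obtain ⟨M, hM⟩ : ∃ M : ℕ, ∀ i j, (ent u i j).natAbs ≤ M :=
    ⟨Finset.univ.sup (fun p : Fin n × Fin n => (ent u p.1 p.2).natAbs), fun i j =>
      Finset.le_sup (f := fun p : Fin n × Fin n => (ent u p.1 p.2).natAbs)
        (Finset.mem_univ (i, j))⟩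
  refine ⟨n * M + 1, by omega, fun k => ?_⟩
  obtain ⟨D, hD⟩ : ∃ D, D = n * M + 1 := ⟨_, rfl⟩
  rw [← hD]
  induction k with
  | zero =>
    intro i j
    rw [pow_zero, ent_one]
    by_cases h : i = j
    · subst h; simp
    · rw [Matrix.one_apply_ne h]; simp
  | succ k ih =>
    intro i j
    rw [pow_succ, ent_mul, Matrix.mul_apply, ← Finset.add_sum_erase _ _ (Finset.mem_univ j),
      ent_diag, mul_one]
    have hterm : ∀ l ∈ Finset.univ.erase j, ent (u ^ k) i l * ent u l j = 0 ∨
        ((i : ℕ) ≤ l ∧ (l : ℕ) + 3 ≤ j) := by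
      intro l hl
      have hlj : l ≠ j := (Finset.mem_erase.mp hl).1
      by_cases a1 : l < i
      · left; rw [ent_lower _ a1, zero_mul]
      by_cases a2 : j < l
      · left; rw [ent_lower u a2, mul_zero]
      have a3 : l < j := lt_of_le_of_ne (not_lt.mp a2) hlj
      by_cases a4 : (j : ℕ) - l ≤ 2
      · left; rw [hu l j a3 a4, mul_zero]
      right
      have : (i : ℕ) ≤ l := not_lt.mp a1
      omega
    obtain ⟨e, he⟩ : ∃ e, e = ((j : ℕ) - i) / 3 := ⟨_, rfl⟩
    have ihj := ih i j
    rw [← he] at ihj ⊢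
    have hDk : 1 ≤ D * (k + 1) := Nat.mul_pos (by omega) (by omega)
    rcases Nat.eq_zero_or_pos e with h0 | h0
    · have : ∑ l ∈ Finset.univ.erase j, ent (u ^ k) i l * ent u l j = 0 := by
        refine Finset.sum_eq_zero fun l hl => ?_
        rcases hterm l hl with h | h
        · exact h
        · omega
      rw [this, add_zero]
      simpa [h0] using ihj
    · obtain ⟨e', rfl⟩ : ∃ e', e = e' + 1 := ⟨e - 1, by omega⟩
      have hb : ∀ l ∈ Finset.univ.erase j,
          (ent (u ^ k) i l * ent u l j).natAbs ≤ (D * (k + 1)) ^ e' * M := by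
        intro l hl
        rcases hterm l hl with h | h
        · rw [h]; simp
        · rw [Int.natAbs_mul]
          refine Nat.mul_le_mul (le_trans (ih i l) ?_) (hM l j)
          calc (D * k) ^ (((l : ℕ) - i) / 3) ≤ (D * (k + 1)) ^ (((l : ℕ) - i) / 3) :=
                Nat.pow_le_pow_left (Nat.mul_le_mul_left _ (Nat.le_succ k)) _
            _ ≤ (D * (k + 1)) ^ e' := Nat.pow_le_pow_right hDk (by omega)
      have hs : (∑ l ∈ Finset.univ.erase j, ent (u ^ k) i l * ent u l j).natAbs
          ≤ n * ((D * (k + 1)) ^ e' * M) := by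
        refine le_trans (Int.natAbs_sum_le _ _) ?_
        refine le_trans (Finset.sum_le_card_nsmul _ _ _ hb) ?_
        rw [smul_eq_mul]
        refine Nat.mul_le_mul_right _ ?_
        simp
      refine le_trans (Int.natAbs_add_le _ _) (le_trans (Nat.add_le_add ihj hs) ?_)
      have p1 : (D * k) ^ e' ≤ (D * (k + 1)) ^ e' :=
        Nat.pow_le_pow_left (Nat.mul_le_mul_left _ (Nat.le_succ k)) _
      calc (D * k) ^ (e' + 1) + n * ((D * (k + 1)) ^ e' * M)
          = (D * k) ^ e' * (D * k) + (D * (k + 1)) ^ e' * (n * M) := by ring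
        _ ≤ (D * (k + 1)) ^ e' * (D * k) + (D * (k + 1)) ^ e' * D := by
            gcongr
            omega
        _ = (D * (k + 1)) ^ (e' + 1) := by ring

/-- An element with vanishing first and second superdiagonals is at least cubically distorted. -/
theorem wordLength_pow_cube (hT : Subgroup.closure (T : Set (UT n)) = ⊤) (u : UT n)
    (hu : ∀ i j : Fin n, i < j → (j : ℕ) - i ≤ 2 → ent u i j = 0) :
    ∃ C : ℕ, ∀ t : ℕ, 1 ≤ t → wordLength T (u ^ (t ^ 3)) ≤ C * t := by
  obtain ⟨C, hC⟩ := wordLength_le_of_entries hT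
  obtain ⟨D, hD1, hD⟩ := pow_entries u hu
  refine ⟨C * D, fun t ht => ?_⟩
  rw [mul_assoc]
  have h1 : 1 ≤ D * t := Nat.mul_pos hD1 ht
  refine hC (D * t) h1 _ fun i j _ => le_trans (hD _ i j) ?_
  have h2 : D * t ^ 3 ≤ (D * t) ^ 3 := by
    rw [mul_pow]
    exact Nat.mul_le_mul_right _ (Nat.le_self_pow (by norm_num) D)
  calc (D * t ^ 3) ^ (((j : ℕ) - i) / 3) ≤ ((D * t) ^ 3) ^ (((j : ℕ) - i) / 3) :=
        Nat.pow_le_pow_left h2 _
    _ = (D * t) ^ (3 * (((j : ℕ) - i) / 3)) := by rw [← pow_mul]
    _ ≤ _ := Nat.pow_le_pow_right h1 (Nat.mul_div_le _ _)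

lemma mul_entry_one (g h : UT n) {p q : Fin n} (hpq : (q : ℕ) = p + 1) :
    ent (g * h) p q = ent g p q + ent h p q := by
  have hne : p ≠ q := by intro h; rw [h] at hpq; omega
  rw [ent_mul, Matrix.mul_apply, ← Finset.sum_subset (Finset.subset_univ {p, q}),
    Finset.sum_pair hne, ent_diag, ent_diag]
  · ring
  · intro l _ hl
    simp only [Finset.mem_insert, Finset.mem_singleton, not_or, Fin.ext_iff] at hl
    by_cases a : l < p
    · rw [ent_lower _ a, zero_mul]
    · have : q < l := by rw [Fin.lt_def] at a ⊢; omega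
      rw [ent_lower h this, mul_zero]

lemma mul_entry_two (g h : UT n) {p q r : Fin n} (hpq : (q : ℕ) = p + 1) (hqr : (r : ℕ) = q + 1) :
    ent (g * h) p r = ent g p r + ent h p r + ent g p q * ent h q r := by
  have h1 : p ∉ ({q, r} : Finset (Fin n)) := by
    simp only [Finset.mem_insert, Finset.mem_singleton, not_or, Fin.ext_iff]; omega
  have h2 : q ≠ r := by intro h; rw [h] at hqr; omega
  rw [ent_mul, Matrix.mul_apply, ← Finset.sum_subset (Finset.subset_univ {p, q, r}),
    Finset.sum_insert h1, Finset.sum_pair h2, ent_diag, ent_diag]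
  · ring
  · intro l _ hl
    simp only [Finset.mem_insert, Finset.mem_singleton, not_or, Fin.ext_iff] at hl
    by_cases a : l < p
    · rw [ent_lower _ a, zero_mul]
    · have : r < l := by rw [Fin.lt_def] at a ⊢; omega
      rw [ent_lower h this, mul_zero]

lemma comm_entry_one {g h u : UT n} (e : g * h = u * (h * g)) {p q : Fin n}
    (hpq : (q : ℕ) = p + 1) : ent u p q = 0 := by
  have h1 := congrArg (fun x => ent x p q) e
  simp only [mul_entry_one _ _ hpq] at h1
  linarith

lemma comm_entry_two {g h u : UT n} (e : g * h = u * (h * g)) {p q r : Fin n}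
    (hpq : (q : ℕ) = p + 1) (hqr : (r : ℕ) = q + 1) :
    ent u p r = ent g p q * ent h q r - ent h p q * ent g q r := by
  have h1 := congrArg (fun x => ent x p r) e
  simp only [mul_entry_two _ _ hpq hqr, comm_entry_one e hpq] at h1
  linarith

/-- The five dimensional Heisenberg relations force the first two superdiagonals of the central
element to vanish. -/
theorem heis_vanish {x1 y1 x2 y2 u : UT n} (e1 : x1 * y1 = u * (y1 * x1))
    (e2 : x2 * y2 = u * (y2 * x2)) (c1 : x1 * x2 = x2 * x1) (c2 : x1 * y2 = y2 * x1)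
    (c3 : y1 * x2 = x2 * y1) (c4 : y1 * y2 = y2 * y1) :
    ∀ i j : Fin n, i < j → (j : ℕ) - i ≤ 2 → ent u i j = 0 := by
  intro p r hpr hd
  have hpr' : (p : ℕ) < r := hpr
  by_cases h1 : (r : ℕ) = p + 1
  · exact comm_entry_one e1 h1
  · let q : Fin n := ⟨p + 1, by omega⟩
    have hpq : (q : ℕ) = p + 1 := rfl
    have hqr : (r : ℕ) = q + 1 := by omega
    have o : ent (1 : UT n) p r = 0 := Matrix.one_apply_ne hpr.ne
    have a1 := comm_entry_two e1 hpq hqr
    have a2 := comm_entry_two e2 hpq hqr
    have b1 := comm_entry_two (u := 1) (c1.trans (one_mul _).symm) hpq hqr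
    have b2 := comm_entry_two (u := 1) (c2.trans (one_mul _).symm) hpq hqr
    have b3 := comm_entry_two (u := 1) (c3.trans (one_mul _).symm) hpq hqr
    have b4 := comm_entry_two (u := 1) (c4.trans (one_mul _).symm) hpq hqr
    rw [o] at b1 b2 b3 b4
    have : ent u p r * ent u p r = 0 := by
      calc ent u p r * ent u p r
          = (ent x1 p q * ent y1 q r - ent y1 p q * ent x1 q r)
            * (ent x2 p q * ent y2 q r - ent y2 p q * ent x2 q r) := by rw [← a1, ← a2]
        _ = (ent x1 p q * ent x2 q r - ent x2 p q * ent x1 q r)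
            * (ent y1 p q * ent y2 q r - ent y2 p q * ent y1 q r)
            - (ent x1 p q * ent y2 q r - ent y2 p q * ent x1 q r)
            * (ent y1 p q * ent x2 q r - ent x2 p q * ent y1 q r) := by ring
        _ = 0 := by rw [← b1, ← b2]; ring
    exact mul_self_eq_zero.mp this

end Pool.Agent.Lib.MP_34ced1_al
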