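import Mathlib
import Pool.Agent.Lib.MP_34ced1_al.Upper

namespace Pool.Agent.Lib.MP_34ced1_al

/-- The five dimensional integer Heisenberg group. -/
@[ext] structure H5 where
  a1 : ℤ
  a2 : ℤ
  b1 : ℤ
  b2 : ℤ
  c : ℤ

namespace H5

instance : Mul H5 := ⟨fun g h => ⟨g.a1 + h.a1, g.a2 + h.a2, g.b1 + h.b1, g.b2 + h.b2,
  g.c + h.c + g.a1 * h.b1 + g.a2 * h.b2⟩⟩

instance : One H5 := ⟨⟨0, 0, 0, 0, 0⟩⟩

instance : Inv H5 := ⟨fun g => ⟨-g.a1, -g.a2, -g.b1, -g.b2, -g.c + g.a1 * g.b1 + g.a2 * g.b2⟩⟩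

@[simp] lemma mul_a1 (g h : H5) : (g * h).a1 = g.a1 + h.a1 := rfl
@[simp] lemma mul_a2 (g h : H5) : (g * h).a2 = g.a2 + h.a2 := rfl
@[simp] lemma mul_b1 (g h : H5) : (g * h).b1 = g.b1 + h.b1 := rfl
@[simp] lemma mul_b2 (g h : H5) : (g * h).b2 = g.b2 + h.b2 := rfl
@[simp] lemma mul_c (g h : H5) : (g * h).c = g.c + h.c + g.a1 * h.b1 + g.a2 * h.b2 := rfl
@[simp] lemma one_a1 : (1 : H5).a1 = 0 := rfl
@[simp] lemma one_a2 : (1 : H5).a2 = 0 := rfl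
@[simp] lemma one_b1 : (1 : H5).b1 = 0 := rfl
@[simp] lemma one_b2 : (1 : H5).b2 = 0 := rfl
@[simp] lemma one_c : (1 : H5).c = 0 := rfl
@[simp] lemma inv_a1 (g : H5) : g⁻¹.a1 = -g.a1 := rfl
@[simp] lemma inv_a2 (g : H5) : g⁻¹.a2 = -g.a2 := rfl
@[simp] lemma inv_b1 (g : H5) : g⁻¹.b1 = -g.b1 := rfl
@[simp] lemma inv_b2 (g : H5) : g⁻¹.b2 = -g.b2 := rfl
@[simp] lemma inv_c (g : H5) : g⁻¹.c = -g.c + g.a1 * g.b1 + g.a2 * g.b2 := rfl

instance : Group H5 := Group.ofLeftAxioms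
  (fun g h k => by ext <;> simp <;> ring)
  (fun g => by ext <;> simp)
  (fun g => by ext <;> simp; ring)

lemma fg : Group.FG H5 := by
  classical
  rw [Group.fg_iff]
  refine ⟨{⟨1, 0, 0, 0, 0⟩, ⟨0, 1, 0, 0, 0⟩, ⟨0, 0, 1, 0, 0⟩, ⟨0, 0, 0, 1, 0⟩, ⟨0, 0, 0, 0, 1⟩},
    ?_, Set.toFinite _⟩
  rw [eq_top_iff]
  intro g _
  set K := Subgroup.closure ({⟨1, 0, 0, 0, 0⟩, ⟨0, 1, 0, 0, 0⟩, ⟨0, 0, 1, 0, 0⟩, ⟨0, 0, 0, 1, 0⟩,
    ⟨0, 0, 0, 0, 1⟩} : Set H5) with hK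
  have key : ∀ f : ℤ → H5, (∀ a b, f (a + b) = f a * f b) → f 1 ∈ K → ∀ k, f k ∈ K := by
    intro f hf h1 k
    rw [eq_zpow_of_add f hf k]
    exact K.zpow_mem h1 k
  have h1 := key (fun k => ⟨k, 0, 0, 0, 0⟩) (fun a b => by ext <;> simp)
    (Subgroup.subset_closure (by simp)) g.a1
  have h2 := key (fun k => ⟨0, k, 0, 0, 0⟩) (fun a b => by ext <;> simp)
    (Subgroup.subset_closure (by simp)) g.a2
  have h3 := key (fun k => ⟨0, 0, k, 0, 0⟩) (fun a b => by ext <;> simp)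
    (Subgroup.subset_closure (by simp)) g.b1
  have h4 := key (fun k => ⟨0, 0, 0, k, 0⟩) (fun a b => by ext <;> simp)
    (Subgroup.subset_closure (by simp)) g.b2
  have h5 := key (fun k => ⟨0, 0, 0, 0, k⟩) (fun a b => by ext <;> simp)
    (Subgroup.subset_closure (by simp)) g.c
  have : g = (⟨0, 0, 0, 0, g.c⟩ : H5) * ⟨0, 0, g.b1, 0, 0⟩ * ⟨0, 0, 0, g.b2, 0⟩
      * ⟨g.a1, 0, 0, 0, 0⟩ * ⟨0, g.a2, 0, 0, 0⟩ := by ext <;> simp
  rw [this]
  exact K.mul_mem (K.mul_mem (K.mul_mem (K.mul_mem h5 h3) h4) h1) h2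

lemma pow_coords (g : H5) (k : ℕ) : (g ^ k).a1 = k * g.a1 ∧ (g ^ k).a2 = k * g.a2 ∧
    (g ^ k).b1 = k * g.b1 ∧ (g ^ k).b2 = k * g.b2 ∧
    (g.a1 = 0 → g.a2 = 0 → (g ^ k).c = k * g.c) := by
  induction k with
  | zero => simp
  | succ k ih =>
    obtain ⟨h1, h2, h3, h4, h5⟩ := ih
    rw [pow_succ]
    refine ⟨?_, ?_, ?_, ?_, fun e1 e2 => ?_⟩
    · simp [h1]; ring
    · simp [h2]; ring
    · simp [h3]; ring
    · simp [h4]; ring
    · simp [h1, h2, h5 e1 e2, e1, e2]; ring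

lemma torsionFree (g : H5) (hg : g ≠ 1) : ¬ IsOfFinOrder g := by
  intro h
  obtain ⟨k, hk, e⟩ := isOfFinOrder_iff_pow_eq_one.mp h
  obtain ⟨h1, h2, h3, h4, h5⟩ := pow_coords g k
  rw [e] at h1 h2 h3 h4 h5
  have hk' : (k : ℤ) ≠ 0 := by exact_mod_cast hk.ne'
  have a1 : g.a1 = 0 := by simpa [hk.ne'] using h1
  have a2 : g.a2 = 0 := by simpa [hk.ne'] using h2
  have a3 : g.b1 = 0 := by simpa [hk.ne'] using h3
  have a4 : g.b2 = 0 := by simpa [hk.ne'] using h4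
  have a5 : g.c = 0 := by simpa [hk.ne'] using h5 a1 a2
  exact hg (by ext <;> simp [*])

lemma nilpotent : Group.IsNilpotent H5 := by
  let f : H5 →* Multiplicative (ℤ × ℤ × ℤ × ℤ) :=
    MonoidHom.mk' (fun g => Multiplicative.ofAdd (g.a1, g.a2, g.b1, g.b2)) (fun g h => rfl)
  refine Subgroup.isNilpotent_of_ker_le_center f fun g hg => ?_
  have h0 : (g.a1, g.a2, g.b1, g.b2) = (0, 0, 0, 0) := hg
  simp only [Prod.mk.injEq] at h0
  rw [Subgroup.mem_center_iff]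
  intro h
  ext <;> simp [h0, add_comm]

/-- All coordinates are bounded by `M`. -/
def Bd (M : ℤ) (g : H5) : Prop :=
  |g.a1| ≤ M ∧ |g.a2| ≤ M ∧ |g.b1| ≤ M ∧ |g.b2| ≤ M ∧ |g.c| ≤ M

lemma prod_bound (M : ℤ) (hM : 1 ≤ M) (w : List H5) (hw : ∀ x ∈ w, Bd M x) :
    |w.prod.b1| ≤ w.length * M ∧ |w.prod.b2| ≤ w.length * M ∧
      |w.prod.c| ≤ (w.length * M) ^ 2 := by
  induction w with
  | nil => simp
  | cons x w ih =>
    obtain ⟨h1, h2, h3⟩ := ih (fun y hy => hw y (List.mem_cons_of_mem _ hy))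
    obtain ⟨x1, x2, x3, x4, x5⟩ := hw x List.mem_cons_self
    rw [List.prod_cons, List.length_cons]
    simp only [mul_b1, mul_b2, mul_c]
    push_cast
    have hl : (0 : ℤ) ≤ w.length := by positivity
    refine ⟨?_, ?_, ?_⟩
    · refine le_trans (abs_add_le _ _) ?_
      linarith
    · refine le_trans (abs_add_le _ _) ?_
      linarith
    · have e1 : |x.a1 * w.prod.b1| ≤ M * (w.length * M) := by
        rw [abs_mul]; exact mul_le_mul x1 h1 (abs_nonneg _) (by linarith)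
      have e2 : |x.a2 * w.prod.b2| ≤ M * (w.length * M) := by
        rw [abs_mul]; exact mul_le_mul x2 h2 (abs_nonneg _) (by linarith)
      have e3 := abs_add_le (x.c + w.prod.c + x.a1 * w.prod.b1) (x.a2 * w.prod.b2)
      have e4 := abs_add_le (x.c + w.prod.c) (x.a1 * w.prod.b1)
      have e5 := abs_add_le x.c w.prod.c
      nlinarith

lemma exists_bd (s : Finset H5) : ∃ M : ℤ, 1 ≤ M ∧ ∀ x ∈ s, Bd M x ∧ Bd M x⁻¹ := by
  let f : H5 → ℤ := fun g => |g.a1| + |g.a2| + |g.b1| + |g.b2| + |g.c|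
  have hf : ∀ (M : ℤ) (g : H5), f g ≤ M → Bd M g := by
    intro M g h
    have := abs_nonneg g.a1
    have := abs_nonneg g.a2
    have := abs_nonneg g.b1
    have := abs_nonneg g.b2
    have := abs_nonneg g.c
    simp only [f] at h
    refine ⟨?_, ?_, ?_, ?_, ?_⟩ <;> linarith
  have hf0 : ∀ g, 0 ≤ f g := fun g => by positivity
  refine ⟨1 + ∑ x ∈ s, (f x + f x⁻¹), ?_, fun x hx => ?_⟩
  · have : 0 ≤ ∑ x ∈ s, (f x + f x⁻¹) := Finset.sum_nonneg fun x _ => add_nonneg (hf0 _) (hf0 _)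
    linarith
  · have := Finset.single_le_sum (f := fun x => f x + f x⁻¹)
      (fun x _ => add_nonneg (hf0 _) (hf0 _)) hx
    exact ⟨hf _ _ (by linarith [hf0 x⁻¹]), hf _ _ (by linarith [hf0 x])⟩

/-- The central generator. -/
def z : H5 := ⟨0, 0, 0, 0, 1⟩

lemma wordLength_center {K : Type} [Group K] (φ : H5 →* K) (hφ : Function.Injective φ)
    (S : Finset K) (hS : Subgroup.closure (S : Set K) = φ.range) :
    ∃ M : ℕ, ∀ k : ℕ, k ≤ (wordLength S (φ z ^ k) * M) ^ 2 := by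
  classical
  let ψ : K → H5 := Function.invFun φ
  have hψ : ∀ x ∈ φ.range, φ (ψ x) = x := fun x hx => Function.invFun_eq hx
  obtain ⟨M, hM1, hM⟩ := exists_bd (S.image ψ)
  refine ⟨M.toNat, fun k => ?_⟩
  have hmem : φ z ^ k ∈ Subgroup.closure (S : Set K) := by
    rw [hS]; exact ⟨z ^ k, map_pow φ z k⟩
  obtain ⟨w, hw1, hw2, hw3⟩ := exists_word hmem
  have hSr : ∀ x ∈ S, x ∈ φ.range := fun x hx => hS ▸ Subgroup.subset_closure hx
  have hr : ∀ x ∈ w, x ∈ φ.range := by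
    intro x hx
    rcases hw1 x hx with h | h
    · exact hSr x h
    · exact (inv_mem_iff).mp (hSr _ h)
  have hbd : ∀ y ∈ w.map ψ, Bd M y := by
    intro y hy
    obtain ⟨x, hx, rfl⟩ := List.mem_map.mp hy
    rcases hw1 x hx with h | h
    · exact (hM _ (Finset.mem_image_of_mem ψ h)).1
    · have e : ψ x = (ψ x⁻¹)⁻¹ := by
        apply hφ
        rw [map_inv, hψ x (hr x hx), hψ _ (hSr _ h), inv_inv]
      rw [e]
      exact (hM _ (Finset.mem_image_of_mem ψ h)).2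
  have hprod : (w.map ψ).prod = z ^ k := by
    apply hφ
    rw [map_list_prod, List.map_map, map_pow, ← hw2]
    congr 1
    conv_rhs => rw [← List.map_id w]
    exact List.map_congr_left fun x hx => hψ x (hr x hx)
  have h3 := (prod_bound M hM1 _ hbd).2.2
  rw [hprod, (pow_coords z k).2.2.2.2 rfl rfl, List.length_map, hw3] at h3
  have h4 : |(k : ℤ) * z.c| = k := by simp [z]
  rw [h4] at h3
  have h5 : ((M.toNat : ℕ) : ℤ) = M := Int.toNat_of_nonneg (by linarith)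
  rw [← h5] at h3
  exact_mod_cast h3

theorem distorted (n : ℕ) (φ : H5 →* UT n) (hφ : Function.Injective φ) :
    ¬ Undistorted φ.range := by
  rintro ⟨S, T, hS, hT, C, hC1, hC⟩
  obtain ⟨M, hM⟩ := wordLength_center φ hφ S hS
  have hv := heis_vanish (x1 := φ ⟨1, 0, 0, 0, 0⟩) (y1 := φ ⟨0, 0, 1, 0, 0⟩)
    (x2 := φ ⟨0, 1, 0, 0, 0⟩) (y2 := φ ⟨0, 0, 0, 1, 0⟩) (u := φ z)
    (by simp only [← map_mul]; congr 1) (by simp only [← map_mul]; congr 1)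
    (by simp only [← map_mul]; congr 1) (by simp only [← map_mul]; congr 1)
    (by simp only [← map_mul]; congr 1) (by simp only [← map_mul]; congr 1)
  obtain ⟨D, hD⟩ := wordLength_pow_cube hT (φ z) hv
  obtain ⟨t, ht⟩ := exists_nat_gt ((C * (D + 1) * M) ^ 2)
  have ht0 : (0 : ℝ) < t := lt_of_le_of_lt (by positivity) ht
  have ht1 : 1 ≤ t := by exact_mod_cast ht0
  have ht1' : (1 : ℝ) ≤ t := by exact_mod_cast ht1
  have h1 := hC (φ z ^ (t ^ 3)) ⟨z ^ (t ^ 3), map_pow φ z _⟩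
  have h2 : (wordLength T (φ z ^ (t ^ 3)) : ℝ) ≤ D * t := by exact_mod_cast hD t ht1
  have h3 : ((t : ℝ)) ^ 3 ≤ ((wordLength S (φ z ^ (t ^ 3)) : ℝ) * M) ^ 2 := by
    exact_mod_cast hM (t ^ 3)
  have h4 : (wordLength S (φ z ^ (t ^ 3)) : ℝ) ≤ C * (D + 1) * t := by
    have : C * (wordLength T (φ z ^ (t ^ 3)) : ℝ) ≤ C * (D * t) :=
      mul_le_mul_of_nonneg_left h2 (by linarith)
    nlinarith
  have h5 : ((wordLength S (φ z ^ (t ^ 3)) : ℝ) * M) ^ 2 ≤ (C * (D + 1) * t * M) ^ 2 := by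
    gcongr
  have h6 : (C * (D + 1) * t * M) ^ 2 = (C * (D + 1) * M) ^ 2 * t ^ 2 := by ring
  have h7 : (C * (D + 1) * M) ^ 2 * (t : ℝ) ^ 2 < t * t ^ 2 :=
    mul_lt_mul_of_pos_right ht (by positivity)
  nlinarith

end H5

end Pool.Agent.Lib.MP_34ced1_al
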